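import Mathlib

/-!
# MP_1596c6_nt, Q1: a counterexample

We disprove Q1: for `T = {(33, 784), (773, 263424)}` and `(α, β) = (773, 263424) ∈ R'_T`
we have `(α, β) ∉ S_T(g_t + β g_{t-1})` for every `t ≥ 10`.

The characteristic polynomials split: `x² - 33 x - 784 = (x - 49)(x + 16)` and
`x² - 773 x - 263424 = (x - 1029)(x + 256)`, with `1029 = 49·21 < 49²`, `256 = 16·16`.
-/

namespace Pool.Agent.Results.MP_1596c6_nt.SlowPairs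

/-- the recurrence `w_1 = a₁`, `w_2 = a₂`, `w_{k+2} = α w_{k+1} + β w_k` (`k ≥ 1`);
the value at the unused index `0` is set to be `a₁` and is never used below. -/
def w (α β a₁ a₂ : ℕ) : ℕ → ℕ
  | 0 => a₁
  | 1 => a₁
  | 2 => a₂
  | (k + 3) => α * w α β a₁ a₂ (k + 2) + β * w α β a₁ a₂ (k + 1)

/-- `g_1 = 1`, `g_2 = α`, `g_{k+2} = α g_{k+1} + β g_k` (`k ≥ 1`). -/
def g (α β : ℕ) (k : ℕ) : ℕ := w α β 1 α k

/-- `s_{α,β}(n; a₁, a₂)`: the supremum of the indices `k ≥ 1` with `w_k(a₁,a₂) = n`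
(`⊥ = -∞` if there is none). -/
noncomputable def sAt (α β n a₁ a₂ : ℕ) : WithBot ℕ∞ :=
  ⨆ (k : ℕ) (_ : 1 ≤ k) (_ : w α β a₁ a₂ k = n), ((k : ℕ∞) : WithBot ℕ∞)

/-- `s_{α,β}(n) = max_{a₁,a₂ ≥ 1} s_{α,β}(n; a₁, a₂)`. -/
noncomputable def s (α β n : ℕ) : WithBot ℕ∞ :=
  ⨆ (a₁ : ℕ) (a₂ : ℕ) (_ : 1 ≤ a₁) (_ : 1 ≤ a₂), sAt α β n a₁ a₂

/-- `ŝ_T(n) = max_{(α,β) ∈ T} s_{α,β}(n)`. -/
noncomputable def sHat (T : Set (ℕ × ℕ)) (n : ℕ) : WithBot ℕ∞ :=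
  ⨆ p ∈ T, s p.1 p.2 n

/-- `S_T(n) = {(α,β) ∈ T : s_{α,β}(n) = ŝ_T(n)}`. -/
def S (T : Set (ℕ × ℕ)) (n : ℕ) : Set (ℕ × ℕ) := {p | p ∈ T ∧ s p.1 p.2 n = sHat T n}

/-- `γ_{α,β} = (α + √(α² + 4β))/2`. -/
noncomputable def gam (p : ℕ × ℕ) : ℝ := ((p.1 : ℝ) + √((p.1 : ℝ) ^ 2 + 4 * (p.2 : ℝ))) / 2

/-- `Γ_T = min {γ_{α,β} : (α,β) ∈ T}`. -/
noncomputable def Gam (T : Set (ℕ × ℕ)) : ℝ := sInf (gam '' T)

/-- `R'_T = {(α,β) ∈ T : γ_{α,β} < Γ_T²}`. -/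
def R' (T : Set (ℕ × ℕ)) : Set (ℕ × ℕ) := {p | p ∈ T ∧ gam p < Gam T ^ 2}

/-! ### elementary facts -/

lemma w_mono (α β a₁ a₂ : ℕ) (h1 : 1 ≤ a₁) (h2 : 1 ≤ a₂) :
    ∀ k, w α β 1 1 k ≤ w α β a₁ a₂ k
  | 0 => by simpa [w] using h1
  | 1 => by simpa [w] using h1
  | 2 => by simpa [w] using h2
  | (k + 3) => by
      have e1 := w_mono α β a₁ a₂ h1 h2 (k + 2)
      have e2 := w_mono α β a₁ a₂ h1 h2 (k + 1)
      simp only [w]
      exact Nat.add_le_add (Nat.mul_le_mul_left _ e1) (Nat.mul_le_mul_left _ e2)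

lemma w_pos (α β : ℕ) (hα : 1 ≤ α) : ∀ k, 1 ≤ w α β 1 1 k
  | 0 => by simp [w]
  | 1 => by simp [w]
  | 2 => by simp [w]
  | (k + 3) => by
      have e1 := w_pos α β hα (k + 2)
      simp only [w]
      have : 1 ≤ α * w α β 1 1 (k + 2) := Nat.one_le_iff_ne_zero.mpr (by positivity)
      omega

lemma w_lt_succ (α β : ℕ) (hα : 1 ≤ α) (hβ : 1 ≤ β) (k : ℕ) :
    w α β 1 1 (k + 2) < w α β 1 1 (k + 3) := by
  have e1 := w_pos α β hα (k + 1)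
  have e2 := w_pos α β hα (k + 2)
  have : w α β 1 1 (k + 3) = α * w α β 1 1 (k + 2) + β * w α β 1 1 (k + 1) := by
    simp only [w]
  rw [this]
  have h3 : w α β 1 1 (k + 2) ≤ α * w α β 1 1 (k + 2) := Nat.le_mul_of_pos_left _ hα
  have h4 : 1 ≤ β * w α β 1 1 (k + 1) := Nat.one_le_iff_ne_zero.mpr (by positivity)
  omega

lemma w_strictMono (α β : ℕ) (hα : 1 ≤ α) (hβ : 1 ≤ β) :
    StrictMono (fun k => w α β 1 1 (k + 2)) :=
  strictMono_nat_of_lt_succ (fun k => w_lt_succ α β hα hβ k)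

/-- `g_t + β g_{t-1} = w_{t+1}(1,1)` for `t ≥ 2`. -/
lemma g_eq (α β : ℕ) : ∀ j : ℕ, g α β (j + 2) + β * g α β (j + 1) = w α β 1 1 (j + 3)
  | 0 => by simp [g, w]
  | 1 => by simp only [g, w]; ring
  | (j + 2) => by
      have e1 := g_eq α β j
      have e2 := g_eq α β (j + 1)
      have h1 : g α β (j + 2 + 2) = α * g α β (j + 1 + 2) + β * g α β (j + 2) := by
        simp only [g, w]
      have h2 : g α β (j + 2 + 1) = α * g α β (j + 1 + 1) + β * g α β (j + 1) := by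
        simp only [g, w]
      have h3 : w α β 1 1 (j + 2 + 3) = α * w α β 1 1 (j + 1 + 3) + β * w α β 1 1 (j + 3) := by
        simp only [w]
      rw [h1, h3, ← e1, ← e2, h2]
      have h5 : g α β (j + 1 + 1) = g α β (j + 2) := rfl
      rw [h5]
      ring

lemma idx_le (α β : ℕ) (hα : 1 ≤ α) (hβ : 1 ≤ β) (j a₁ a₂ k : ℕ) (h1 : 1 ≤ a₁) (h2 : 1 ≤ a₂)
    (hw : w α β a₁ a₂ k = w α β 1 1 (j + 3)) : k ≤ j + 3 := by
  by_contra hcon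
  push Not at hcon
  obtain ⟨i, rfl⟩ : ∃ i, k = i + 2 := ⟨k - 2, by omega⟩
  have h3 := w_strictMono α β hα hβ (show j + 1 < i by omega)
  have h4 := w_mono α β a₁ a₂ h1 h2 (i + 2)
  have h3' : w α β 1 1 (j + 3) < w α β 1 1 (i + 2) := h3
  omega

/-- upper bound: `s_{α,β}(g_t + β g_{t-1}) ≤ t + 1`. -/
lemma s_le (α β : ℕ) (hα : 1 ≤ α) (hβ : 1 ≤ β) (j : ℕ) :
    s α β (g α β (j + 2) + β * g α β (j + 1)) ≤ (((j + 3 : ℕ) : ℕ∞) : WithBot ℕ∞) := by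
  rw [g_eq]
  unfold s sAt
  refine iSup_le fun a₁ => iSup_le fun a₂ => iSup_le fun h1 => iSup_le fun h2 =>
    iSup_le fun k => iSup_le fun hk => iSup_le fun hw => ?_
  have hkj : k ≤ j + 3 := idx_le α β hα hβ j a₁ a₂ k h1 h2 hw
  exact_mod_cast hkj

/-- closed form for `(33, 784)`. -/
lemma w_form (a₁ a₂ : ℕ) (x y : ℤ) (h1 : 5 * (a₁ : ℤ) = x - y)
    (h2 : 5 * (a₂ : ℤ) = 49 * x + 16 * y) :
    ∀ k : ℕ, 5 * ((w 33 784 a₁ a₂ (k + 1) : ℕ) : ℤ) = x * 49 ^ k - y * (-16) ^ k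
  | 0 => by simp only [w, pow_zero]; linarith
  | 1 => by simp only [w]; linarith
  | (k + 2) => by
      have e1 := w_form a₁ a₂ x y h1 h2 k
      have e2 := w_form a₁ a₂ x y h1 h2 (k + 1)
      have h3 : w 33 784 a₁ a₂ (k + 2 + 1)
          = 33 * w 33 784 a₁ a₂ (k + 1 + 1) + 784 * w 33 784 a₁ a₂ (k + 1) := by
        simp only [w]
      rw [h3]
      push_cast
      have : 5 * (33 * ((w 33 784 a₁ a₂ (k + 1 + 1) : ℕ) : ℤ)
          + 784 * ((w 33 784 a₁ a₂ (k + 1) : ℕ) : ℤ))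
          = 33 * (5 * ((w 33 784 a₁ a₂ (k + 1 + 1) : ℕ) : ℤ))
          + 784 * (5 * ((w 33 784 a₁ a₂ (k + 1) : ℕ) : ℤ)) := by ring
      rw [this, e1, e2]
      ring

/-- closed form for `w(1,1)` with `(773, 263424)`. -/
lemma w_form' : ∀ k : ℕ, 5 * ((w 773 263424 1 1 (k + 1) : ℕ) : ℤ)
      = 1029 ^ k + 4 * (-256) ^ k
  | 0 => by simp only [w, pow_zero]; norm_num
  | 1 => by simp only [w]; norm_num
  | (k + 2) => by
      have e1 := w_form' k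
      have e2 := w_form' (k + 1)
      have h3 : w 773 263424 1 1 (k + 2 + 1)
          = 773 * w 773 263424 1 1 (k + 1 + 1) + 263424 * w 773 263424 1 1 (k + 1) := by
        simp only [w]
      rw [h3]
      push_cast
      have : 5 * (773 * ((w 773 263424 1 1 (k + 1 + 1) : ℕ) : ℤ)
          + 263424 * ((w 773 263424 1 1 (k + 1) : ℕ) : ℤ))
          = 773 * (5 * ((w 773 263424 1 1 (k + 1 + 1) : ℕ) : ℤ))
          + 263424 * (5 * ((w 773 263424 1 1 (k + 1) : ℕ) : ℤ)) := by ring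
      rw [this, e1, e2]
      ring

lemma pow_ineq : ∀ i : ℕ, 64 * 16 ^ (i + 8) + 5 ≤ 9 * 21 ^ (i + 8)
  | 0 => by norm_num
  | (i + 1) => by
      have h := pow_ineq i
      have h1 : 64 * 16 ^ (i + 1 + 8) = 16 * (64 * 16 ^ (i + 8)) := by ring
      have h2 : 9 * 21 ^ (i + 1 + 8) = 21 * (9 * 21 ^ (i + 8)) := by ring
      omega

/-- lower bound: for `t = i + 10`, the walk `(33,784)` reaches `n_t` at index `t + 2`. -/
lemma reach (i : ℕ) : ∃ a₁ a₂ : ℕ, 1 ≤ a₁ ∧ 1 ≤ a₂ ∧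
    w 33 784 a₁ a₂ (i + 12) = w 773 263424 1 1 (i + 11) := by
  have hmod1 : 9 * 21 ^ (i + 8) ≡ 64 * 16 ^ (i + 8) [MOD 5] := by
    have e1 : 21 ^ (i + 8) ≡ 1 ^ (i + 8) [MOD 5] := Nat.ModEq.pow _ (by decide)
    have e2 : 16 ^ (i + 8) ≡ 1 ^ (i + 8) [MOD 5] := Nat.ModEq.pow _ (by decide)
    have e3 : (9 : ℕ) ≡ 64 [MOD 5] := by decide
    exact (e3.mul e1).trans ((Nat.ModEq.refl 64).mul e2.symm)
  have hineq := pow_ineq i
  have hd1 : 5 ∣ 9 * 21 ^ (i + 8) - 64 * 16 ^ (i + 8) :=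
    (Nat.modEq_iff_dvd' (by omega)).mp hmod1.symm
  obtain ⟨a₁, ha₁⟩ := hd1
  have hd2 : 5 ∣ 441 * 21 ^ (i + 8) + 1024 * 16 ^ (i + 8) := by
    have e1 : 21 ^ (i + 8) ≡ 1 ^ (i + 8) [MOD 5] := Nat.ModEq.pow _ (by decide)
    have e2 : 16 ^ (i + 8) ≡ 1 ^ (i + 8) [MOD 5] := Nat.ModEq.pow _ (by decide)
    have e3 : 441 * 21 ^ (i + 8) + 1024 * 16 ^ (i + 8)
        ≡ 441 * 1 ^ (i + 8) + 1024 * 1 ^ (i + 8) [MOD 5] :=
      ((Nat.ModEq.refl 441).mul e1).add ((Nat.ModEq.refl 1024).mul e2)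
    have e4 : 441 * 1 ^ (i + 8) + 1024 * 1 ^ (i + 8) ≡ 0 [MOD 5] := by
      simp only [one_pow]; decide
    exact (Nat.modEq_zero_iff_dvd).mp (e3.trans e4)
  obtain ⟨a₂, ha₂⟩ := hd2
  have hp : 1 ≤ 21 ^ (i + 8) := Nat.one_le_pow _ _ (by norm_num)
  refine ⟨a₁, a₂, by omega, by omega, ?_⟩
  have hz1 : 5 * (a₁ : ℤ) = 9 * 21 ^ (i + 8) - 64 * 16 ^ (i + 8) := by
    have h : 5 * a₁ + 64 * 16 ^ (i + 8) = 9 * 21 ^ (i + 8) := by omega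
    have h' : 5 * (a₁ : ℤ) + 64 * 16 ^ (i + 8) = 9 * 21 ^ (i + 8) := by exact_mod_cast h
    linarith
  have hz2 : 5 * (a₂ : ℤ) = 49 * (9 * 21 ^ (i + 8)) + 16 * (64 * 16 ^ (i + 8)) := by
    have h' : (441 * 21 ^ (i + 8) + 1024 * 16 ^ (i + 8) : ℤ) = 5 * (a₂ : ℤ) := by
      exact_mod_cast ha₂
    linarith
  have hA := w_form a₁ a₂ (9 * 21 ^ (i + 8)) (64 * 16 ^ (i + 8)) hz1 hz2 (i + 11)
  have hB := w_form' (i + 10)
  have hC : (9 * 21 ^ (i + 8) * 49 ^ (i + 11) - 64 * 16 ^ (i + 8) * (-16) ^ (i + 11) : ℤ)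
      = 1029 ^ (i + 10) + 4 * (-256) ^ (i + 10) := by
    have e1 : (1029 : ℤ) ^ (i + 10) = 21 ^ (i + 10) * 49 ^ (i + 10) := by
      rw [← mul_pow]; norm_num
    have e2 : (-256 : ℤ) ^ (i + 10) = 16 ^ (i + 10) * (-16) ^ (i + 10) := by
      rw [← mul_pow]; norm_num
    rw [e1, e2]
    ring
  have hD : 5 * ((w 33 784 a₁ a₂ (i + 12) : ℕ) : ℤ)
      = 5 * ((w 773 263424 1 1 (i + 11) : ℕ) : ℤ) := by
    rw [show i + 12 = i + 11 + 1 from rfl, hA, hC, show i + 11 = i + 10 + 1 from rfl, hB]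
  have hE : ((w 33 784 a₁ a₂ (i + 12) : ℕ) : ℤ) = ((w 773 263424 1 1 (i + 11) : ℕ) : ℤ) := by
    linarith
  exact_mod_cast hE

/-- the set `T` -/
def T₀ : Set (ℕ × ℕ) := {(33, 784), (773, 263424)}

lemma gam1 : gam (33, 784) = 49 := by
  unfold gam
  have : (((33, 784) : ℕ × ℕ).1 : ℝ) ^ 2 + 4 * (((33, 784) : ℕ × ℕ).2 : ℝ) = 65 ^ 2 := by
    norm_num
  rw [this, Real.sqrt_sq (by norm_num)]
  norm_num

lemma gam2 : gam (773, 263424) = 1029 := by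
  unfold gam
  have : (((773, 263424) : ℕ × ℕ).1 : ℝ) ^ 2 + 4 * (((773, 263424) : ℕ × ℕ).2 : ℝ)
      = 1285 ^ 2 := by
    norm_num
  rw [this, Real.sqrt_sq (by norm_num)]
  norm_num

lemma Gam_T : Gam T₀ = 49 := by
  unfold Gam T₀
  rw [Set.image_pair, gam1, gam2, csInf_pair]
  norm_num

lemma mem_R' : ((773, 263424) : ℕ × ℕ) ∈ R' T₀ := by
  refine ⟨by simp [T₀], ?_⟩
  rw [Gam_T, gam2]
  norm_num

lemma not_mem (t : ℕ) (ht : 10 ≤ t) :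
    ((773, 263424) : ℕ × ℕ) ∉ S T₀ (g 773 263424 t + 263424 * g 773 263424 (t - 1)) := by
  obtain ⟨i, rfl⟩ : ∃ i, t = i + 10 := ⟨t - 10, by omega⟩
  rintro ⟨-, h⟩
  have h1 : s 773 263424 (g 773 263424 (i + 10) + 263424 * g 773 263424 (i + 10 - 1))
      ≤ (((i + 8 + 3 : ℕ) : ℕ∞) : WithBot ℕ∞) :=
    s_le 773 263424 (by norm_num) (by norm_num) (i + 8)
  have h2 : g 773 263424 (i + 10) + 263424 * g 773 263424 (i + 10 - 1)
      = w 773 263424 1 1 (i + 11) := g_eq 773 263424 (i + 8)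
  obtain ⟨a₁, a₂, ha₁, ha₂, hw⟩ := reach i
  have h3 : (((i + 12 : ℕ) : ℕ∞) : WithBot ℕ∞)
      ≤ sHat T₀ (g 773 263424 (i + 10) + 263424 * g 773 263424 (i + 10 - 1)) := by
    rw [h2]
    unfold sHat
    refine le_trans ?_ (le_iSup₂_of_le (33, 784) (by simp [T₀]) le_rfl)
    unfold s
    refine le_iSup_of_le a₁ (le_iSup_of_le a₂ (le_iSup_of_le ha₁ (le_iSup_of_le ha₂ ?_)))
    unfold sAt
    exact le_iSup_of_le (i + 12) (le_iSup_of_le (by omega) (le_iSup_of_le hw le_rfl))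
  have h4 : s ((773, 263424) : ℕ × ℕ).1 ((773, 263424) : ℕ × ℕ).2
      (g 773 263424 (i + 10) + 263424 * g 773 263424 (i + 10 - 1))
      ≤ (((i + 8 + 3 : ℕ) : ℕ∞) : WithBot ℕ∞) := h1
  rw [h] at h4
  have h5 := h3.trans h4
  have h6 : i + 12 ≤ i + 8 + 3 := by exact_mod_cast h5
  omega

/-- The same in elementary terms: for `t ≥ 10` the number `n_t = g_t + β g_{t-1}` is the
`(t+2)`-nd term of a `(33,784)`-recurrence with positive starting values, but it is not the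
`k`-th term of any `(773,263424)`-recurrence with positive starting values if `k > t + 1`. -/
lemma elementary (t : ℕ) (ht : 10 ≤ t) :
    (∃ a₁ a₂ : ℕ, 1 ≤ a₁ ∧ 1 ≤ a₂ ∧
      w 33 784 a₁ a₂ (t + 2) = g 773 263424 t + 263424 * g 773 263424 (t - 1)) ∧
    ∀ a₁ a₂ k : ℕ, 1 ≤ a₁ → 1 ≤ a₂ → 1 ≤ k →
      w 773 263424 a₁ a₂ k = g 773 263424 t + 263424 * g 773 263424 (t - 1) → k ≤ t + 1 := by
  obtain ⟨i, rfl⟩ : ∃ i, t = i + 10 := ⟨t - 10, by omega⟩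
  have h2 : g 773 263424 (i + 10) + 263424 * g 773 263424 (i + 10 - 1)
      = w 773 263424 1 1 (i + 11) := g_eq 773 263424 (i + 8)
  rw [h2]
  refine ⟨reach i, fun a₁ a₂ k h1 h3 _ hw => ?_⟩
  exact idx_le 773 263424 (by norm_num) (by norm_num) (i + 8) a₁ a₂ k h1 h3 hw

/-- **Q1 is false.**  For `T = {(33,784), (773,263424)}` (pairs of coprime positive integers)
and `(α, β) = (773,263424) ∈ R'_T`, the set of `t ≥ 2` with
`(α, β) ∈ S_T(g_t + β g_{t-1})` is finite (it is contained in `{2, …, 9}`). -/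
theorem result :
    (∃ T : Set (ℕ × ℕ), T.Nonempty ∧
      (∀ p ∈ T, 1 ≤ p.1 ∧ 1 ≤ p.2 ∧ Nat.Coprime p.1 p.2) ∧
      ∃ p ∈ R' T, {t : ℕ | 2 ≤ t ∧ p ∈ S T (g p.1 p.2 t + p.2 * g p.1 p.2 (t - 1))}.Finite) ∧
    (773, 263424) ∈ R' {(33, 784), (773, 263424)} ∧
    (∀ t : ℕ, 10 ≤ t → (773, 263424) ∉
      S {(33, 784), (773, 263424)} (g 773 263424 t + 263424 * g 773 263424 (t - 1))) ∧
    (∀ t : ℕ, 10 ≤ t →
      (∃ a₁ a₂ : ℕ, 1 ≤ a₁ ∧ 1 ≤ a₂ ∧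
        w 33 784 a₁ a₂ (t + 2) = g 773 263424 t + 263424 * g 773 263424 (t - 1)) ∧
      ∀ a₁ a₂ k : ℕ, 1 ≤ a₁ → 1 ≤ a₂ → 1 ≤ k →
        w 773 263424 a₁ a₂ k = g 773 263424 t + 263424 * g 773 263424 (t - 1) → k ≤ t + 1) := by
  have hT : ∀ p ∈ T₀, 1 ≤ p.1 ∧ 1 ≤ p.2 ∧ Nat.Coprime p.1 p.2 := by
    intro p hp
    rcases hp with hp | hp
    · subst hp; refine ⟨by norm_num, by norm_num, by norm_num⟩
    · rw [Set.mem_singleton_iff] at hp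
      subst hp; refine ⟨by norm_num, by norm_num, by norm_num⟩
  refine ⟨⟨T₀, ⟨(33, 784), by simp [T₀]⟩, hT, (773, 263424), mem_R', ?_⟩,
    mem_R', not_mem, elementary⟩
  refine (Set.finite_lt_nat 10).subset ?_
  rintro t ⟨-, ht⟩
  change t < 10
  by_contra hcon
  push Not at hcon
  exact not_mem t hcon ht

end Pool.Agent.Results.MP_1596c6_nt.SlowPairs
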